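import Pool.Agent.Lib.MP_343319_al.Rid.Main

namespace Pool.Agent.Results.MP_343319_al.AlternatingGap

/-- If `|A_m| |A_k| = |A_n|` with `5 ≤ k ≤ m`, then `n - m = o(log log n)`. -/
theorem result (ε : ℝ) (hε : 0 < ε) : ∃ N : ℕ, ∀ k m n : ℕ, 5 ≤ k → k ≤ m → N ≤ n →
    Nat.card (alternatingGroup (Fin m)) * Nat.card (alternatingGroup (Fin k)) =
      Nat.card (alternatingGroup (Fin n)) → (n : ℝ) - m ≤ ε * Real.log (Real.log n) :=
  Pool.Agent.Lib.MP_343319_al.Rid.gap_alt ε hε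

end Pool.Agent.Results.MP_343319_al.AlternatingGap
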