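import Pool.Agent.Lib.MP_343319_al.P1

namespace Pool.Agent.Results.MP_343319_al.Classification

open Pool.Agent.Lib.MP_343319_al

/-- The list of solutions `|M| * |N| = |A_n|` with `|M| = x`, `|N| = y`. -/
def Sol (n x y : ℕ) : Prop :=
  (x = (n - 1).factorial / 2 ∧ y = n) ∨
  (∃ f, 3 ≤ f ∧ n = 2 ^ f + 1 ∧ x = (2 ^ f - 2).factorial / 2 ∧ y = 2 ^ f * (4 ^ f - 1)) ∨
  (n = 11 ∧ x = (7 : ℕ).factorial / 2 ∧ y = 7920) ∨
  (n = 12 ∧ x = (7 : ℕ).factorial / 2 ∧ y = 95040) ∨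
  (n = 22 ∧ x = (18 : ℕ).factorial / 2 ∧ y = 175560) ∨
  (n = 57 ∧ x = (54 : ℕ).factorial / 2 ∧ y = 175560) ∨
  (∃ k m, 5 ≤ k ∧ k ≤ m ∧ m + 2 ≤ n ∧ x = m.factorial / 2 ∧ y = k.factorial / 2 ∧
    m.factorial * k.factorial = 2 * n.factorial)

theorem result (x y z : ℕ) (hx : SimpleOrder x) (hy : SimpleOrder y) (hz : SimpleOrder z) :
    x * y = z ↔ ∃ n, 5 ≤ n ∧ z = n.factorial / 2 ∧ (Sol n x y ∨ Sol n y x) := by
  constructor
  · intro h
    rcases simpleOrder_cases hz with ⟨n, hn, rfl⟩ | hz | hz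
    · exact ⟨n, hn, rfl, alt_classification hx hy hn h⟩
    · exact absurd h (lie_no hx hy hz)
    · exact absurd h (spor_no hx hy hz)
  · rintro ⟨n, hn, rfl, h | h⟩
    · exact Listed.mul hn h
    · rw [mul_comm]; exact Listed.mul hn h

end Pool.Agent.Results.MP_343319_al.Classification
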